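import Pool.Agent.U9.CG.Main
import Pool.Agent.Results.MP_65b575_al.FreeOrVirtuallyAbelian
import Pool.Agent.Results.MP_65b575_al.SlowActions

/-!
# Finitely presented monsters and contracting groups

Let `ψ : Γ → Γ ≀ Sym X`, `X` finite, be a contracting wreath recursion: there is a finite set which
contains the sections of every element of `Γ` at all long words. Let `K` be a group of automorphisms of
the tree `X^*` whose elements have all their sections at some level in the group of tree automorphisms
given by `ψ` (for instance this group itself). Suppose that the quotients of `Γ` by finitely many elements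
of finite order are groups with the alternative of `FreeOrVirtuallyAbelian` (`TorsionQuotients`): this
holds for finite groups, virtually abelian groups, torsion-free groups with the alternative, and all
free products of such groups. Then every homomorphism to `K` from a finitely presented group without
nonabelian free subgroups has a virtually abelian image, `K` has no nonabelian free subgroup, and all
finitely presented groups which embed in `K` are virtually abelian. In particular they are of
polynomial growth, and the infinite ones are not monsters of type (2)-(6); and every homomorphism to `K`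
from a finitely presented monster of type (2), (3) or (4) has a finite image.

The same holds if the elements of `K` have their sections at some level in `⟨N⟩` for a finite set `N`
of tree automorphisms with `1 ∈ N = N⁻¹`, closed under sections, such that the sections of the products
of any two elements of `N` are in `N` at some level, and such that `a⁻¹ b ∈ N` is a transitive relation
on `N ∖ {1}`.

There is no condition on the activity of the automorphisms. For example `Γ` may be a free product of
cyclic groups; by Nekrashevych the recursions of post-critically finite rational functions with a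
periodic critical point are contracting recursions on such groups (not proved here).

Outline of the proof. That `K` has the alternative follows from the engine `Pool/Agent/U863/CT` of
helper863, as the groups with the alternative are a closed class (`FreeOrVirtuallyAbelian`): the group
given by `ψ` is a directed colimit of subgroups of iterated wreath products of a quotient of `Γ` by
finitely many elements of finite order which act trivially. That `K` has no nonabelian free subgroup is
a theorem of Nekrashevych, proved here as follows. Let `a`, `b` generate a free group `F ≤ K`. The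
`2 ^ (2 ^ j)` positive words of length `2 ^ j` have all sections at the level `n = k j + l` in a finite
set. For large `j` and each word `v` of length `n`, two of them have the same value and the same section
at `v`; so a nontrivial element of `F` acts trivially on the subtree of `v`. By powers and commutators
(commuting elements of a free group have a common power) there is a nontrivial element of `F` which acts
trivially on all these subtrees: a contradiction.
-/

set_option autoImplicit false

namespace Pool.Agent.Results.MP_65b575_al.ContractingGroups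

open Pool.Agent.Y462.SS (T Wr tau)
open Pool.Agent.U863.CT (Contracting secw Auto CliqueSet Arrow)
open FreeOrVirtuallyAbelian (HasFree VirtAbelian Alternative growth alternative_eq)
open SlowActions (Type2 Type3 Type4 Type5 Type6 VirtuallyIndicable)

/-- The quotients of `A` by finitely many elements of finite order have the alternative. -/
def TorsionQuotients (A : Type) [Group A] : Prop :=
  ∀ S : Set A, S.Finite → (∀ s ∈ S, IsOfFinOrder s) →
    Alternative (A ⧸ Subgroup.normalClosure S)

/-- Every finitely presented group which embeds in `K` is virtually abelian and of polynomial growth,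
and it is not of type (2), (3), (4), (5) or (6) if it is infinite. -/
def NoMonsters (K : Type) [Group K] : Prop :=
  ∀ (H : Type) [Group H], Group.IsFinitelyPresented H → ∀ f : H →* K, Function.Injective f →
    VirtAbelian H ∧
    (∀ S : Finset H, Subgroup.closure (S : Set H) = ⊤ →
      ∃ D : ℕ, ∀ n : ℕ, growth S n ≤ D * (n + 1) ^ D) ∧
    (Infinite H → ¬ (Type2 H ∨ Type3 H ∨ Type4 H ∨ Type5 H ∨ Type6 H))

/-- an infinite finitely generated virtually abelian group has a subgroup of finite index with a
nontrivial homomorphism to `ℤ` -/
theorem vi_of_virtAbelian (H : Type) [Group H] [Infinite H] (hfg : Group.FG H)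
    (h : VirtAbelian H) : VirtuallyIndicable H := by
  classical
  obtain ⟨A, hAf, hcomm⟩ := h
  have hAfg : Group.FG A := Subgroup.fg_of_index_ne_zero (H := A)
  let _ : CommGroup A :=
    { (inferInstance : Group A) with
      mul_comm := fun x y => Subtype.ext (hcomm x x.2 y y.2) }
  refine ⟨A, hAf, ?_⟩
  obtain ⟨ι, j, _, _, p, hp, e, ⟨E⟩⟩ := CommGroup.equiv_free_prod_prod_multiplicative_zmod A
  rcases isEmpty_or_nonempty j with hj | ⟨⟨i₀⟩⟩
  · exfalso
    have hz : ∀ i : ι, Finite (Multiplicative (ZMod (p i ^ e i))) := by
      intro i
      have : NeZero (p i ^ e i) := ⟨pow_ne_zero _ (hp i).ne_zero⟩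
      exact inferInstanceAs (Finite (ZMod (p i ^ e i)))
    have h1 : Finite A := Finite.of_equiv _ E.symm.toEquiv
    have hq : Finite (H ⧸ A) := Subgroup.finite_quotient_of_finiteIndex
    have h2 : Finite H := Finite.of_subgroup_quotient A
    exact not_finite H
  · refine ⟨(Pi.evalMonoidHom (fun _ : j => Multiplicative ℤ) i₀).comp
      ((MonoidHom.fst _ _).comp E.toMonoidHom), fun h => ?_⟩
    have h1 := DFunLike.congr_fun h (E.symm (fun _ => Multiplicative.ofAdd 1, 1))
    simp at h1

theorem noMonsters_of (K : Type) [Group K] (hA : Alternative K) (hF : ¬ HasFree K) :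
    NoMonsters K := by
  intro H _ hH f hf
  have hHF : ¬ HasFree H := by
    rintro ⟨g, hg⟩
    exact hF ⟨f.comp g, hf.comp hg⟩
  have h1 : VirtAbelian H := by
    have h2 := (hA H hH f).resolve_left hHF
    exact Pool.Agent.N59.TT.VAb.of_inj f.rangeRestrict (fun a b hab => by
      have h3 : f a = f b := congrArg (fun z : f.range => (z : K)) hab
      exact hf h3) h2
  refine ⟨h1, fun S hS => Pool.Agent.N674.TTGP.main H S hS h1, fun hinf h2 => ?_⟩
  have hfg : Group.FG H := by
    obtain ⟨S, hS, h3⟩ := N6.W.exists_gen H
    exact Group.fg_iff.2 ⟨S, h3, hS⟩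
  have := SlowActions.result.{0, 0, 0} H
  exact (this.2.2.2.1 hinf h2) (vi_of_virtAbelian H hfg h1)

/-- two letters of a free group do not commute -/
theorem letters_ne : (FreeGroup.of (0 : Fin 2)) * FreeGroup.of 1 ≠ FreeGroup.of 1 * FreeGroup.of 0 := by
  intro h
  have h2 := congrArg FreeGroup.toWord h
  revert h2
  decide

/-- finitely presented groups of type (2), (3) or (4) have no nonabelian free subgroups -/
theorem not_hasFree_of_type (H : Type) [Group H] [Infinite H] (hH : Group.IsFinitelyPresented H)
    (h : Type2 H ∨ Type3 H ∨ Type4 H) : ¬ HasFree H := by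
  rintro ⟨f, hf⟩
  have hcyc : ∀ L : Subgroup H, f (FreeGroup.of 0) ∈ L → f (FreeGroup.of 1) ∈ L →
      ¬ IsCyclic L := by
    rintro L h0 h1 ⟨⟨c, hc⟩⟩
    obtain ⟨i, hi⟩ := hc ⟨_, h0⟩
    obtain ⟨j, hj⟩ := hc ⟨_, h1⟩
    have h2 : (⟨_, h0⟩ : L) * ⟨_, h1⟩ = ⟨_, h1⟩ * ⟨_, h0⟩ := by
      rw [← hi, ← hj]
      change c ^ i * c ^ j = c ^ j * c ^ i
      rw [← zpow_add, ← zpow_add, add_comm]
    apply letters_ne
    apply hf
    rw [map_mul, map_mul]
    exact congrArg Subtype.val h2
  rcases h with ⟨n, hn, h⟩ | ⟨-, h⟩ | ⟨p, hp, h⟩
  · have h1 := h (f (FreeGroup.of 0))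
    rw [← map_pow, ← map_one f] at h1
    have h2 : (FreeGroup.of (0 : Fin 2)) = 1 :=
      (pow_eq_one_iff_left (by omega : n ≠ 0)).1 (hf h1)
    exact FreeGroup.of_ne_one 0 h2
  · by_cases ht : f.range = ⊤
    · have hsurj : Function.Surjective f := MonoidHom.range_eq_top.1 ht
      let E : FreeGroup (Fin 2) ≃* H := MulEquiv.ofBijective f ⟨hf, hsurj⟩
      have hVI : VirtuallyIndicable H := by
        refine ⟨⊤, inferInstance, ((FreeGroup.lift fun _ : Fin 2 =>
          (Multiplicative.ofAdd (1 : ℤ))).comp E.symm.toMonoidHom).comp (⊤ : Subgroup H).subtype,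
          fun h1 => ?_⟩
        have h2 := DFunLike.congr_fun h1 (⟨E (FreeGroup.of 0), trivial⟩ : (⊤ : Subgroup H))
        simp at h2
      have hcl := (SlowActions.result.{0, 0, 0} H).2.2.2.1 inferInstance
      refine hcl (Or.inr (Or.inl ⟨?_, h⟩)) hVI
      intro hc
      have h3 : IsCyclic (⊤ : Subgroup H) := by
        obtain ⟨c, hc⟩ := hc
        refine ⟨⟨⟨c, trivial⟩, fun x => ?_⟩⟩
        obtain ⟨i, hi⟩ := hc x.1
        exact ⟨i, Subtype.ext hi⟩
      exact hcyc ⊤ trivial trivial h3
    · exact hcyc f.range ⟨_, rfl⟩ ⟨_, rfl⟩ (h _ ht)
  · have h0 : f (FreeGroup.of 0) ≠ 1 := by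
      intro h1
      rw [← map_one f] at h1
      exact FreeGroup.of_ne_one 0 (hf h1)
    have hinf : ¬ IsOfFinOrder (f (FreeGroup.of 0)) := by
      rw [isOfFinOrder_iff_pow_eq_one]
      rintro ⟨n, hn, h1⟩
      rw [← map_pow, ← map_one f] at h1
      exact FreeGroup.of_ne_one 0 ((pow_eq_one_iff_left hn.ne').1 (hf h1))
    have hb : Subgroup.zpowers (f (FreeGroup.of 0)) ≠ ⊥ := by
      rw [Ne, Subgroup.zpowers_eq_bot]
      exact h0
    have ht : Subgroup.zpowers (f (FreeGroup.of 0)) ≠ ⊤ := by
      intro h1
      refine hcyc (Subgroup.zpowers (f (FreeGroup.of 0))) (Subgroup.mem_zpowers _) ?_ inferInstance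
      rw [h1]
      trivial
    obtain ⟨-, h1⟩ := h _ hb ht
    rw [Nat.card_zpowers] at h1
    have h2 : 0 < orderOf (f (FreeGroup.of 0)) := by
      rw [h1]
      exact hp.pos
    exact hinf (orderOf_pos_iff.1 h2)

/-- Every homomorphism to `K` from an infinite finitely presented group of type (2), (3) or (4), or of
type (5) or (6) without nonabelian free subgroups, has a finite image. -/
def FiniteImages (K : Type) [Group K] : Prop :=
  ∀ (H : Type) [Group H], Group.IsFinitelyPresented H → Infinite H →
    Type2 H ∨ Type3 H ∨ Type4 H ∨ ((Type5 H ∨ Type6 H) ∧ ¬ HasFree H) →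
    ∀ f : H →* K, Finite f.range

theorem finiteImages_of (K : Type) [Group K] (hA : Alternative K) : FiniteImages K := by
  intro H _ hH hinf h f
  have hF : ¬ HasFree H := by
    rcases h with h | h | h | h
    · exact not_hasFree_of_type H hH (Or.inl h)
    · exact not_hasFree_of_type H hH (Or.inr (Or.inl h))
    · exact not_hasFree_of_type H hH (Or.inr (Or.inr h))
    · exact h.2
  have h' : Type2 H ∨ Type3 H ∨ Type4 H ∨ Type5 H ∨ Type6 H := by
    rcases h with h | h | h | ⟨h | h, -⟩
    · exact Or.inl h
    · exact Or.inr (Or.inl h)
    · exact Or.inr (Or.inr (Or.inl h))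
    · exact Or.inr (Or.inr (Or.inr (Or.inl h)))
    · exact Or.inr (Or.inr (Or.inr (Or.inr h)))
  have h2 : VirtAbelian f.range := (hA H hH f).resolve_left hF
  by_contra hfin
  have hinf' : Infinite f.range := not_finite_iff_infinite.1 hfin
  have hfg : Group.FG f.range := by
    obtain ⟨S, hS, h3⟩ := N6.W.exists_gen H
    have h4 : Group.FG H := Group.fg_iff.2 ⟨S, h3, hS⟩
    exact Group.fg_of_surjective f.rangeRestrict_surjective
  obtain ⟨B, hB, g, hg⟩ := vi_of_virtAbelian f.range hfg h2
  refine (SlowActions.result.{0, 0, 0} H).2.2.2.1 hinf h' ?_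
  refine ⟨B.comap f.rangeRestrict, ⟨?_⟩, g.comp ((f.rangeRestrict).subgroupComap B), ?_⟩
  · rw [Subgroup.index_comap_of_surjective _ f.rangeRestrict_surjective]
    exact hB.index_ne_zero
  · intro h3
    apply hg
    ext b
    obtain ⟨x, hx⟩ := f.rangeRestrict_surjective b.1
    have h4 := DFunLike.congr_fun h3 ⟨x, by
      rw [Subgroup.mem_comap, hx]
      exact b.2⟩
    have h5 : (f.rangeRestrict).subgroupComap B ⟨x, by
      rw [Subgroup.mem_comap, hx]
      exact b.2⟩ = b := Subtype.ext hx
    rw [MonoidHom.comp_apply, h5] at h4
    exact congrArg Multiplicative.toAdd h4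

theorem tq_iff (A : Type) [Group A] :
    TorsionQuotients A ↔ Pool.Agent.U863.CT.TorsionQuotients Alternative A := Iff.rfl

/-- 1. Finite groups, virtually abelian groups, and torsion-free groups with the alternative have the
property `TorsionQuotients`, and it is closed under free products.
2. Let `ψ` be a contracting recursion on a group `Γ` with `TorsionQuotients`, and let `K` be a group of
tree automorphisms such that every element of `K` has all sections at some level in the group given by
`ψ`. Then `K` has the alternative, all homomorphisms to `K` from finitely presented groups of type (2), (3)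
or (4) have finite images (`FiniteImages`), `K` has no nonabelian free subgroup, and all finitely presented
groups which embed in `K` are virtually abelian, hence not monsters (`NoMonsters`).
3. Let `N` be a set of tree automorphisms which contains `1`, is closed under inverses and sections, such
that the sections of the products of two elements of `N` are in `N` at some level, and such that `a⁻¹ b ∈ N`
is transitive on `N ∖ {1}`. Let `K` be a group of tree automorphisms such that every element of `K` has all
sections at some level in the group generated by `N`. If `N` is finite, then the conclusions of 2 hold for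
`K`; if `N` may be infinite, but its vertex groups have the alternative, then `K` has the alternative and
`FiniteImages`. -/
theorem result :
    ((∀ (A : Type) [Group A], Finite A ∨ VirtAbelian A ∨
        (Alternative A ∧ ∀ a : A, IsOfFinOrder a → a = 1) → TorsionQuotients A) ∧
      ∀ (ι : Type) (A : ι → Type) [∀ i, Group (A i)], (∀ i, TorsionQuotients (A i)) →
        TorsionQuotients (Monoid.CoprodI A)) ∧
    (∀ (X : Type) [Finite X] (Γ : Type) [Group Γ] (ψ : Γ →* Wr X Γ), TorsionQuotients Γ →
      Contracting ψ → ∀ K : Subgroup (T X),
      (∀ g ∈ K, ∃ n : ℕ, ∀ v : List X, v.length = n →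
        secw (Pool.Agent.Y462.SS.toWr X) g v ∈ (tau ψ).range) →
      Alternative K ∧ FiniteImages K ∧ ¬ HasFree K ∧ NoMonsters K) ∧
    (∀ (X : Type) [Finite X] (N : Set (T X)), Auto N → CliqueSet N → ∀ K : Subgroup (T X),
      (∀ g ∈ K, ∃ n : ℕ, ∀ v : List X, v.length = n →
        secw (Pool.Agent.Y462.SS.toWr X) g v ∈ Subgroup.closure N) →
      (N.Finite → Alternative K ∧ FiniteImages K ∧ ¬ HasFree K ∧ NoMonsters K) ∧
      ((∀ (p : Set (T X)) (V : Subgroup (T X)), (∀ g, g ∈ V ↔ Arrow N p p g) → Alternative V) →
        Alternative K ∧ FiniteImages K)) := by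
  have hC : Pool.Agent.Y462.SS.Closed Alternative := by
    rw [alternative_eq]
    exact Pool.Agent.N59.TT.closed_TT
  refine ⟨⟨?_, ?_⟩, ?_, ?_⟩
  · rintro A _ (h | h | ⟨h1, h2⟩)
    · exact Pool.Agent.U863.CT.tq_finite Alternative hC A
    · intro S _ _
      rw [alternative_eq]
      exact Pool.Agent.N59.TT.TT.of_VAb _ (Pool.Agent.N59.TT.VAb.of_surj
        (QuotientGroup.mk' (Subgroup.normalClosure S)) (QuotientGroup.mk'_surjective _) h)
    · exact Pool.Agent.U863.CT.tq_torsionfree Alternative hC A h1 h2
  · intro ι A _ hA
    exact Pool.Agent.U863.CT.tq_coprodI' Alternative hC hA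
  · intro X _ Γ _ ψ hΓ hψ K hK
    obtain ⟨S, hS, hS1, hS2⟩ := Pool.Agent.U863.CT.tors_main ψ Alternative hC hψ
    have h1 : Alternative K := Pool.Agent.U863.CT.levels_range ψ Alternative hC
      (hS2 (hΓ S hS fun s hs => (hS1 s hs).1)) K hK
    have h2 : ¬ HasFree K := Pool.Agent.U9.CG.not_free_range ψ hψ K hK
    exact ⟨h1, finiteImages_of K h1, h2, noMonsters_of K h1 h2⟩
  · intro X _ N hN hT K hK
    refine ⟨fun hf => ?_, fun hv => ?_⟩
    · have h1 : Alternative K :=
        Pool.Agent.U863.CT.gpd_main' Alternative hC N hN hT (Or.inl hf) K hK
      have h2 : ¬ HasFree K := Pool.Agent.U9.CG.not_free_auto N hf hN K hK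
      exact ⟨h1, finiteImages_of K h1, h2, noMonsters_of K h1 h2⟩
    · have h1 : Alternative K :=
        Pool.Agent.U863.CT.gpd_main' Alternative hC N hN hT (Or.inr hv) K hK
      exact ⟨h1, finiteImages_of K h1⟩

end Pool.Agent.Results.MP_65b575_al.ContractingGroups
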