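import Pool.Agent.U530.LG.App
import Pool.Agent.N6.W.Semi

/-!
# Finitely presented monsters of type (7) and actions of linear growth

Let `G` be a finitely presented group and `L` a finitely generated subgroup of `G` without free
subsemigroups of rank two, for instance a monster of type (7), or more generally a subgroup such that the
commutator subgroups of its subgroups of finite index are finitely generated. We show that the image of
`L` in any action of `G` of at most linear growth is virtually abelian. So a finitely presented monster of
type (7) has no faithful action of linear growth, and neither has a finitely presented group which contains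
a monster of type (7); and there is a gap: for every `c` and all large `n` every faithful action has a
point `x` with more than `c n` points at distance at most `n`.

The start hand-in IntermediateGrowth is the case of the full group of a `ℤ`-action and normal subgroups
`L`; in SubgroupsOfSlowGroups the Betti numbers of the subgroups of finite index of `L` have to be bounded.

Proof. In balls of linear growth there are many cuts with few boundary points; they have finitely many
patterns (surroundings of the boundary, and the connections of the boundary points inside the cut by `L`).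
For each pattern `p` which occurs at two nested cuts `A ⊆ B` of some action we choose one such pair, in any
action; as `G` is finitely presented, it acts on the periodic space made of copies of `B \ A`, and a
subgroup `K_p` of finite index acts by translations of the copies. Let `K` be the intersection of the `K_p`;
the commutator subgroup `M` of `K ∩ L` has finitely many generators. Now let `F` be a cut of the pattern `p`
around a point `x` whose `L`-orbit leaves `F`. The group `G` acts on the chain made of `F` and infinitely
many copies of `B \ A`, far from `F` as on the periodic space, and the `L`-orbit of `x` in the chain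
contains points which are so far away that the generators of `M` fix them. As `L` normalizes `M`, `M` fixes
`x` in the chain, and hence in the given action.
-/

set_option autoImplicit false

open scoped Pointwise Topology

namespace Pool.Agent.Results.MP_65b575_al.LinearGrowthActions

universe u v w

/-- The points `γ x`, where `γ` is a product of `n` elements of `E`. -/
def Ball {Γ : Type w} {X : Type v} [Group Γ] [MulAction Γ X] (E : Set Γ) (n : ℕ) (x : X) : Set X :=
  {y | ∃ γ ∈ E ^ n, y = γ • x}

/-- At most linear growth: for every finite `E` there is `c` such that for arbitrarily large `n` all sets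
`E ^ n x` have at most `c n` points. -/
def LinearGrowth (Γ : Type w) (X : Type v) [Group Γ] [MulAction Γ X] : Prop :=
  ∀ E : Set Γ, E.Finite → ∃ c : ℕ, ∀ n₀ : ℕ, ∃ n : ℕ, n₀ ≤ n ∧ ∀ x : X,
    (Ball E n x).ncard ≤ c * n

/-- At each point the permutation `σ` coincides with an element of a fixed finite subset of `Γ`. -/
def Piecewise (Γ : Type w) {X : Type v} [Group Γ] [MulAction Γ X] (σ : Equiv.Perm X) : Prop :=
  ∃ E : Set Γ, E.Finite ∧ ∀ x, ∃ γ ∈ E, σ x = γ • x

/-- The homeomorphism `σ` coincides locally with elements of `Γ`. -/
def Locally (Γ : Type w) {X : Type v} [Group Γ] [MulAction Γ X] [TopologicalSpace X]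
    (σ : X ≃ₜ X) : Prop :=
  ∀ x, ∃ γ : Γ, ∀ᶠ y in 𝓝 x, σ y = γ • y

/-- The product of the letters `a` (for `false`) and `b` (for `true`) along the list `l`. -/
def word {G : Type u} [Group G] (a b : G) (l : List Bool) : G :=
  (l.map fun t => if t then b else a).prod

/-- The commutator subgroups of the subgroups of finite index of `L` are finitely generated, or no two
elements of `L` generate a free semigroup of rank two. -/
def Small (L : Type u) [Group L] : Prop :=
  (∀ K : Subgroup L, K.FiniteIndex → (⁅K, K⁆ : Subgroup L).FG) ∨
    ∀ a b : L, ∃ l l' : List Bool, l ≠ l' ∧ word a b l = word a b l'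

/-- The growth function with respect to `S`: the number of elements of word length at most `n`. -/
noncomputable def growth {G : Type u} [Group G] (S : Finset G) (n : ℕ) : ℕ :=
  (((S : Set G) ∪ (S : Set G)⁻¹ ∪ {1}) ^ n).ncard

/-- Type (7): for a finite generating set `S` the growth function is bounded above by no polynomial
and bounded below by no exponential function `e ^ (c r)`, `c > 0`. -/
def Type7 (G : Type u) [Group G] : Prop :=
  ∃ S : Finset G, Subgroup.closure (S : Set G) = ⊤ ∧
    (∀ C d : ℕ, ∃ r : ℕ, C * (r + 1) ^ d < growth S r) ∧
    ∀ c : ℝ, 0 < c → ∃ r : ℕ, (growth S r : ℝ) < Real.exp (c * r)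

/-- The conclusions for a finitely generated subgroup `L` of `G` and a homomorphism `f` from `G`: if `L` is
small, then `f(L)` is virtually abelian; if `L` is of type (7), then `f` is not injective on `L`. -/
def Tame {G : Type u} [Group G] (L : Subgroup G) {P : Type v} [Group P] (f : G →* P) : Prop :=
  (Small L → ∃ A : Subgroup L, A.FiniteIndex ∧ ∀ a ∈ A, ∀ b ∈ A, f a * f b = f b * f a) ∧
  (Type7 L → ¬ Set.InjOn f (L : Set G))

theorem small_of_type7 {L : Type u} [Group L] (h : Type7 L) :
    ∀ K : Subgroup L, K.FiniteIndex → (⁅K, K⁆ : Subgroup L).FG := by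
  obtain ⟨S, hS, -, hexp⟩ := h
  have hFG : Group.FG L := ⟨⟨S, hS⟩⟩
  exact fun K hK => N6.W.commutator_sub_fg hFG (N6.W.no_freePair S hS hexp) K hK

theorem commutators_of_small {L : Type u} [Group L] (hFG : Group.FG L) (h : Small L) :
    ∀ K : Subgroup L, K.FiniteIndex → (⁅K, K⁆ : Subgroup L).FG := by
  rcases h with h | h
  · exact h
  · intro K hK
    refine N6.W.commutator_sub_fg hFG (fun a b => ?_) K hK
    obtain ⟨l, l', hne, he⟩ := h a b
    exact N6.W.homog a b l l' hne he

theorem bl_eq {G : Type u} [Group G] {X : Type v} [MulAction G X] (S : Set G) (x : X) (n : ℕ) :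
    H71R2.Thin.Bl S x n = Ball S n x := by
  ext z
  constructor
  · intro hz
    obtain ⟨g, hg, d, hd, rfl⟩ := H71R2.Thin.mem_nb_iff.1 hz
    rw [Set.mem_singleton_iff.1 hd]
    exact ⟨g, hg, rfl⟩
  · rintro ⟨g, hg, rfl⟩
    exact H71R2.Thin.mem_nb_iff.2 ⟨g, hg, x, rfl, rfl⟩

theorem tame_of {G : Type u} [Group G] {P : Type v} [Group P] (f : G →* P) (L : Subgroup G)
    (hL : L.FG)
    (hf : (∀ K : Subgroup L, K.FiniteIndex → (⁅K, K⁆ : Subgroup L).FG) →
      ∃ A : Subgroup L, A.FiniteIndex ∧ ∀ a ∈ A, ∀ b ∈ A, f a * f b = f b * f a) : Tame L f := by
  have hLfg : Group.FG L := (Group.fg_iff_subgroup_fg L).2 hL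
  refine ⟨fun h => hf (commutators_of_small hLfg h), fun h hinj => ?_⟩
  obtain ⟨A, hA, hab⟩ := hf (small_of_type7 h)
  obtain ⟨S, -, hpoly, -⟩ := h
  refine N6.W.not_injective_of_type7 L (f.comp L.subtype) A hA hab S hpoly ?_
  intro a b e
  exact Subtype.ext (hinj a.2 b.2 e)

/-- Let `G` be a finitely presented group and `L` a finitely generated subgroup of `G`.

(1) Let `L` be small and `S` a finite generating set of `G`. For every `c` there is a subgroup `A` of finite
index of `L` such that for all large `n`, in every action of `G` and for every point `x` with at most `c n`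
points at distance at most `n`, all points of the orbit of `x` under `L` are at distance at most `n` from
`x`, or the commutators of elements of `A` fix `x` (that is, `a b x = b a x` for all `a` and `b` in `A`).

(2) If `G` acts by piecewise (for compact `X`: local) elements of an action of a group `Γ` of linear growth
on a set `X`, then the image of `L` is virtually abelian if `L` is small, and the action is not faithful on
`L` if `L` is a monster of type (7).

(3) If `L` is a monster of type (7), for instance if `L = G`, then for all `c` and all large `n`, every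
faithful action of `G` has a point with more than `c n` points at distance at most `n`. -/
theorem result (G : Type u) [Group G] [Group.IsFinitelyPresented G] (L : Subgroup G) (hL : L.FG) :
    (Small L → ∀ S : Set G, S.Finite → Subgroup.closure S = ⊤ → ∀ c : ℕ,
      ∃ A : Subgroup L, A.FiniteIndex ∧ ∃ n₀ : ℕ, ∀ n, n₀ ≤ n →
        ∀ (X : Type v) [MulAction G X] (x : X), (Ball (S ∪ S⁻¹ ∪ {1}) n x).ncard ≤ c * n →
          (∀ g ∈ L, g • x ∈ Ball (S ∪ S⁻¹ ∪ {1}) n x) ∨
            ∀ a ∈ A, ∀ b ∈ A, (a : G) • (b : G) • x = (b : G) • (a : G) • x) ∧
    (∀ (Γ : Type w) (X : Type v) [Group Γ] [MulAction Γ X], LinearGrowth Γ X →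
      (∀ f : G →* Equiv.Perm X, (∀ g, Piecewise Γ (f g)) → Tame L f) ∧
      (∀ [TopologicalSpace X] [CompactSpace X] (f : G →* (X ≃ₜ X)), (∀ g, Locally Γ (f g)) →
        Tame L f)) ∧
    (Type7 L → ∀ S : Set G, S.Finite → Subgroup.closure S = ⊤ → ∀ c : ℕ, ∃ n₀ : ℕ, ∀ n, n₀ ≤ n →
      ∀ (X : Type v) [MulAction G X] [FaithfulSMul G X],
        ∃ x : X, c * n < (Ball (S ∪ S⁻¹ ∪ {1}) n x).ncard) := by
  have hLfg : Group.FG L := (Group.fg_iff_subgroup_fg L).2 hL
  refine ⟨fun hs S hSf hS c => ?_, fun Γ X _ _ hlin => ⟨fun f hf => ?_, fun f hf => ?_⟩,
    fun h7 S hSf hS c => ?_⟩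
  · have hSf' : (H71R2.Thin.sym S).Finite := by
      have := H71R2.Thin.sym_finite hSf.toFinset
      rwa [hSf.coe_toFinset] at this
    obtain ⟨A, hA, n0, h⟩ := U530.LG.main.{u, v} G hSf' (H71R2.Thin.one_mem_sym _)
      (H71R2.Thin.sym_closure hS) L hL (commutators_of_small hLfg hs) c
    refine ⟨A, hA, n0, fun n hn X _ x hx => ?_⟩
    have h1 := h n hn X x
    rw [bl_eq] at h1
    exact h1 hx
  · exact tame_of f L hL fun hc => U530.LG.virt_ab_full G L hL hc Γ X hlin f hf
  · exact tame_of f L hL fun hc => U530.LG.virt_ab_full_top G L hL hc Γ X hlin f hf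
  · have hSf' : (H71R2.Thin.sym S).Finite := by
      have := H71R2.Thin.sym_finite hSf.toFinset
      rwa [hSf.coe_toFinset] at this
    obtain ⟨n0, h⟩ := U530.LG.main_radius.{u, v} G hSf' (H71R2.Thin.one_mem_sym _)
      (H71R2.Thin.sym_closure hS) L hL (small_of_type7 h7) c
    refine ⟨n0, fun n hn X _ _ => ?_⟩
    by_contra hcon
    push Not at hcon
    obtain ⟨A, hA, hc⟩ := h n hn
    have hab : ∀ a ∈ A, ∀ b ∈ A, a * b = b * a := by
      intro a ha b hb
      apply Subtype.ext
      refine FaithfulSMul.eq_of_smul_eq_smul (α := X) fun x => ?_
      have h1 := hc X x (by rw [bl_eq]; exact hcon x) a ha b hb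
      rw [Subgroup.coe_mul, Subgroup.coe_mul, mul_smul, mul_smul]
      exact h1
    obtain ⟨T, -, hpoly, -⟩ := h7
    exact N6.W.not_injective_of_type7 L (MonoidHom.id L) A hA
      (fun a ha b hb => hab a ha b hb) T hpoly Function.injective_id

end Pool.Agent.Results.MP_65b575_al.LinearGrowthActions
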