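import Pool.Agent.U613.MG.Gam

/-!
# Finitely presented monsters and quotients of the modular group

`Γ = ⟨x, y | x² = y³ = 1⟩` is the modular group `PSL₂(ℤ)`.

1. For every `k` there is a finite group `C` such that for every group `G` which is generated by `k`
   elements there is a homomorphism of `Γ` to the regular wreath product `G ≀ C` whose image contains
   all base functions with values in `[[G, G], G]`, and the base part of the image projects onto each
   factor of the base. It is surjective if `G` is perfect. If `G` has a finite abelianization, the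
   image has finite index; if `G` is moreover finitely presented, the kernel is the normal closure of
   a finite set. In particular every finitely generated torsion group `G` is, up to direct powers and
   subgroups of finite index, a quotient of `PSL₂(ℤ)`, and finitely presented groups need only
   finitely many relations.
2. Infinite finitely presented torsion groups, monsters of type (2), or monsters of type (6), exist if
   and only if they exist among the quotients of `PSL₂(ℤ)` by finitely many relations.
3. Finitely presented monsters of type (5) exist if and only if some quotient of `PSL₂(ℤ)` by finitely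
   many relations has an infinite subgroup of finite index in which all elements have all roots.

Idea of the proof. Let `C` be generated by `x`, `y` of orders `2`, `3` with `(x y)⁶ = 1`: a quotient of
the group of rotations of the triangular lattice which preserve a hexagonal tiling, the faces of
which are the cosets of `⟨x y⟩`. One chooses edges `(a_i, a_i x)` far apart, whose positions form a
Sidon set, three for each generator of `G`, and labels them by the generators; the other edges get
the label `1`. The wreath product elements `X = (labels, x)`, `Y = (1, y)` satisfy `X² = Y³ = 1`, and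
multiply like paths. `U = (X Y)⁶` lies in the base `G^C` and is nontrivial only in the two faces of the
labelled edges. By the Sidon property, a commutator of three conjugates of `U`, which belong to three
different labels, is concentrated in one coordinate, where it is `⁅⁅g_i, g_j⁻¹⁆, g_l⁆`. So
`⟨X, Y⟩ ∩ G^C` contains `L^C` for the normal closure `L` of these elements. `G / L` is nilpotent
of class `2`, so it is finite if the abelianization of `G` is finite, and trivial if `G` is perfect.
-/

set_option autoImplicit false

namespace Pool.Agent.Results.MP_65b575_al.ModularGroupQuotients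

/-- the modular group `⟨x, y | x² = y³ = 1⟩` -/
abbrev Modular : Type :=
  PresentedGroup ({FreeGroup.of 0 ^ 2, FreeGroup.of 1 ^ 3} : Set (FreeGroup (Fin 2)))

/-- torsion groups -/
def Torsion (G : Type) [Group G] : Prop := ∀ g : G, IsOfFinOrder g

/-- property (2): bounded exponent -/
def Type2 (G : Type) [Group G] : Prop := ∃ n : ℕ, 1 ≤ n ∧ ∀ g : G, g ^ n = 1

/-- property (5): all elements have all roots -/
def Type5 (G : Type) [Group G] : Prop := ∀ g : G, ∀ m : ℕ, 1 ≤ m → ∃ h : G, h ^ m = g

/-- property (6): finitely many conjugacy classes -/
def Type6 (G : Type) [Group G] : Prop := Finite (ConjClasses G)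

open Pool.Agent.U613.MG Pool.Agent.U613.PO
open scoped commutatorElement

/-- the quotient `Γ/⟨⟨S⟩⟩` -/
abbrev Quo (S : Set Modular) : Type := Modular ⧸ Subgroup.normalClosure S

/-- some infinite finitely presented group has the property `P` -/
def SomeFP (P : (G : Type) → [Group G] → Prop) : Prop :=
  ∃ (G : Type) (_ : Group G), Infinite G ∧ Group.IsFinitelyPresented G ∧ P G

/-- some infinite quotient of the modular group by finitely many relations has the property `P` -/
def SomeModular (P : (G : Type) → [Group G] → Prop) : Prop :=
  ∃ S : Set Modular, S.Finite ∧ Infinite (Quo S) ∧ P (Quo S)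

/-- The base part of the image of `π` projects onto each factor and contains all base functions with
values in `[[G, G], G]`; if `G` is perfect, `π` is surjective. -/
def Large {G C : Type} [Group G] [Group C] (π : Modular →* G ≀ᵣ C) : Prop :=
  (∀ (c : C) (x : G), ∃ w ∈ π.range, w.right = 1 ∧ w.left c = x) ∧
    (∀ f : C → G, (∀ c, f c ∈ ⁅commutator G, (⊤ : Subgroup G)⁆) → ⟨f, 1⟩ ∈ π.range) ∧
    (commutator G = ⊤ → Function.Surjective π)

/-- (1) The homomorphisms of the modular group to wreath products. (2) Infinite finitely presented
torsion groups, monsters of type (2) and of type (6) exist if and only if they exist among the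
quotients of the modular group by finitely many relations. (3) Type (5), up to finite index. -/
theorem result :
    (∀ k : ℕ, ∃ (C : Type) (_ : Group C) (_ : Finite C), ∀ (G : Type) [Group G] (g : Fin k → G),
      Subgroup.closure (Set.range g) = ⊤ → ∃ π : Modular →* G ≀ᵣ C, Large π ∧
        (Finite (Abelianization G) → π.range.FiniteIndex ∧
          (Group.IsFinitelyPresented G → π.ker.IsFinitelyNormallyGenerated))) ∧
    (SomeFP Torsion ↔ SomeModular Torsion) ∧
    (SomeFP Type2 ↔ SomeModular Type2) ∧
    (SomeFP Type6 ↔ SomeModular Type6) ∧
    (SomeFP Type5 ↔ ∃ S : Set Modular, S.Finite ∧ ∃ D : Subgroup (Quo S),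
      D.FiniteIndex ∧ Infinite D ∧ Type5 D) := by
  have hq : ∀ S : Set Modular, S.Finite →
      Group.IsFinitelyPresented (Modular ⧸ Subgroup.normalClosure S) :=
    fun S hS => Group.IsFinitelyPresented.quotient _ ⟨S, hS, rfl⟩
  refine ⟨?_, ?_, ?_, ?_, ?_⟩
  · intro k
    refine ⟨Ck k, inferInstance, inferInstance, fun G _ g hg => ?_⟩
    have h1 : (phi g).range = PP g := phi_range g
    have h0 : ∀ w ∈ PP g, toReg (Ck k) G w ∈ ((toReg (Ck k) G).toMonoidHom.comp (phi g)).range := by
      intro w hw
      rw [← h1] at hw
      obtain ⟨x, hx⟩ := hw
      exact ⟨x, by rw [← hx]; rfl⟩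
    refine ⟨(toReg (Ck k) G).toMonoidHom.comp (phi g), ⟨?_, ?_, ?_⟩, fun hab => ⟨?_, ?_⟩⟩
    · intro c x
      obtain ⟨w, hw, hw1, hw2⟩ := PP_base g hg c⁻¹ x
      exact ⟨toReg (Ck k) G w, h0 w hw, hw1, hw2⟩
    · intro f hf
      have h2 : (⟨fun c => f c⁻¹, 1⟩ : W (Ck k) G) ∈ PP g :=
        HH_of_LL g hg _ fun c => LL_lcs g hg (hf _)
      have h3 := h0 _ h2
      have h4 : toReg (Ck k) G ⟨fun c => f c⁻¹, 1⟩ = ⟨f, 1⟩ := by
        apply RegularWreathProduct.ext
        · funext c
          show f c⁻¹⁻¹ = f c
          rw [inv_inv]
        · rfl
      rwa [h4] at h3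
    · intro hp
      have h2 : Function.Surjective (phi g) := by
        rw [← MonoidHom.range_eq_top, h1]
        exact PP_top g hg hp
      exact (toReg (Ck k) G).surjective.comp h2
    · have h2 := PP_finiteIndex g hg
      rw [MonoidHom.range_comp, h1]
      refine ⟨?_⟩
      rw [MulEquiv.toMonoidHom_eq_coe, Subgroup.index_map_equiv]
      exact h2.index_ne_zero
    · intro hfp
      have h2 := phi_ker g hg
      have h3 : ((toReg (Ck k) G).toMonoidHom.comp (phi g)).ker = (phi g).ker :=
        (phi g).ker_mulEquiv_comp (toReg (Ck k) G)
      rw [h3]
      exact h2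
  · constructor
    · rintro ⟨G, _, hinf, hfp, ht⟩
      have hfg : Group.FG G := fg_of_fp hfp
      have hab : Finite (Abelianization G) := finite_ab_of_torsion ht
      obtain ⟨k, g, hg, S, hS, hSi, ⟨e⟩⟩ := exists_quot hfp
      refine ⟨S, hS, hSi, fun x => ?_⟩
      obtain ⟨n, hn, h1⟩ := isOfFinOrder_iff_pow_eq_one.1
        (W_torsion (C := Ck k) ht ((e x : PP g) : W (Ck k) G))
      refine isOfFinOrder_iff_pow_eq_one.2 ⟨n, hn, ?_⟩
      apply e.injective
      rw [map_pow, map_one]
      apply Subtype.ext
      exact h1
    · rintro ⟨S, hS, hi, ht⟩
      exact ⟨_, inferInstance, hi, hq S hS, ht⟩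
  · constructor
    · rintro ⟨G, _, hinf, hfp, n, hn, hx⟩
      have hfg : Group.FG G := fg_of_fp hfp
      have hab : Finite (Abelianization G) := finite_ab_of_torsion fun x =>
        isOfFinOrder_iff_pow_eq_one.2 ⟨n, hn, hx x⟩
      obtain ⟨k, g, hg, S, hS, hSi, ⟨e⟩⟩ := exists_quot hfp
      refine ⟨S, hS, hSi, Nat.card (Ck k) * n, Nat.mul_pos Nat.card_pos hn, fun x => ?_⟩
      apply e.injective
      rw [map_pow, map_one]
      apply Subtype.ext
      exact W.exp (fun a => pow_card_eq_one') hx _
    · rintro ⟨S, hS, hi, ht⟩
      exact ⟨_, inferInstance, hi, hq S hS, ht⟩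
  · constructor
    · rintro ⟨G, _, hinf, hfp, hc⟩
      have hc' : Finite (ConjClasses G) := hc
      obtain ⟨N, hN, hNf, hNp⟩ := exists_perfect (G := G)
      have h1 : Finite (ConjClasses N) := finite_conj_sub N
      have h2 : Group.IsFinitelyPresented N := Pool.Agent.V11238.MG.fp_of_finiteIndex N
      have h3 : Infinite N := by
        by_contra hcon
        rw [not_infinite_iff_finite] at hcon
        have h4 : Finite G := by
          apply Nat.finite_of_card_ne_zero
          rw [← Subgroup.card_mul_index N]
          exact mul_ne_zero Nat.card_pos.ne' hNf.index_ne_zero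
        exact not_finite G
      have hab : Finite (Abelianization N) := by
        have : Subsingleton (Abelianization N) := by
          show Subsingleton (N ⧸ commutator N)
          rw [hNp]
          exact QuotientGroup.subsingleton_quotient_top
        infer_instance
      obtain ⟨k, g, hg, S, hS, hSi, ⟨e⟩⟩ := exists_quot h2
      refine ⟨S, hS, hSi, ?_⟩
      have h5 : PP g = ⊤ := PP_top g hg hNp
      have h6 : Finite (ConjClasses (W (Ck k) N)) := finite_conj_wreath
      let f : W (Ck k) N →* (Modular ⧸ Subgroup.normalClosure S) :=
        e.symm.toMonoidHom.comp ((MulEquiv.subgroupCongr h5).symm.toMonoidHom.comp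
          Subgroup.topEquiv.symm.toMonoidHom)
      have hf : Function.Surjective f := e.symm.surjective.comp
        ((MulEquiv.subgroupCongr h5).symm.surjective.comp Subgroup.topEquiv.symm.surjective)
      exact Finite.of_surjective (ConjClasses.map f) (ConjClasses.map_surjective hf)
    · rintro ⟨S, hS, hi, ht⟩
      exact ⟨_, inferInstance, hi, hq S hS, ht⟩
  · constructor
    · rintro ⟨G, _, hinf, hfp, hd⟩
      have hfg : Group.FG G := fg_of_fp hfp
      have hp : commutator G = ⊤ := perfect_of_divisible hd
      have hab : Finite (Abelianization G) := by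
        have : Subsingleton (Abelianization G) := by
          show Subsingleton (G ⧸ commutator G)
          rw [hp]
          exact QuotientGroup.subsingleton_quotient_top
        infer_instance
      obtain ⟨k, g, hg, S, hS, hSi, ⟨e⟩⟩ := exists_quot hfp
      have h5 : PP g = ⊤ := PP_top g hg hp
      have h6 : (base (PP g)).FiniteIndex := inferInstance
      refine ⟨S, hS, (base (PP g)).comap e.toMonoidHom, ?_, ?_, ?_⟩
      · refine ⟨?_⟩
        rw [(base (PP g)).index_comap_of_surjective e.surjective]
        exact h6.index_ne_zero
      · have h7 : ∀ q : G, (SemidirectProduct.inl (fun _ : Ck k => q) : W (Ck k) G) ∈ PP g := by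
          intro q
          rw [h5]
          trivial
        refine Infinite.of_injective (fun q : G =>
          (⟨e.symm ⟨SemidirectProduct.inl (fun _ : Ck k => q), h7 q⟩, ?_⟩ :
            (base (PP g)).comap e.toMonoidHom)) ?_
        · show e (e.symm ⟨SemidirectProduct.inl (fun _ : Ck k => q), h7 q⟩) ∈ base (PP g)
          rw [MulEquiv.apply_symm_apply]
          rfl
        · intro a b hab
          have h8 := e.symm.injective (congrArg Subtype.val hab)
          have h9 := congrArg (fun z : PP g => (z : W (Ck k) G).left 1) h8
          exact h9
      · rintro ⟨x, hx⟩ m hm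
        have hx1 : ((e x : PP g) : W (Ck k) G).right = 1 := hx
        have h7 : ∀ c : Ck k, ∃ y : G, y ^ m = ((e x : PP g) : W (Ck k) G).left c :=
          fun c => hd _ m hm
        choose y hy using h7
        have h8 : (⟨y, 1⟩ : W (Ck k) G) ∈ PP g := by
          rw [h5]
          trivial
        refine ⟨⟨e.symm ⟨⟨y, 1⟩, h8⟩, ?_⟩, ?_⟩
        · show e (e.symm ⟨⟨y, 1⟩, h8⟩) ∈ base (PP g)
          rw [MulEquiv.apply_symm_apply]
          rfl
        · apply Subtype.ext
          show (e.symm ⟨⟨y, 1⟩, h8⟩) ^ m = x
          rw [← map_pow, MulEquiv.symm_apply_eq]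
          apply Subtype.ext
          apply SemidirectProduct.ext
          · funext c
            show ((⟨y, 1⟩ : W (Ck k) G) ^ m).left c = _
            rw [W.pow_left_of_right rfl]
            exact hy c
          · show ((⟨y, 1⟩ : W (Ck k) G) ^ m).right = _
            rw [W.pow_right, hx1]
            exact one_pow m
    · rintro ⟨S, hS, D, hD, hi, ht⟩
      have h1 := hq S hS
      exact ⟨D, inferInstance, hi, Pool.Agent.V11238.MG.fp_of_finiteIndex D, ht⟩

end Pool.Agent.Results.MP_65b575_al.ModularGroupQuotients
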