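import Pool.Agent.U613.VQ.Char

/-!
# Every finitely presented group is a virtual quotient of a finitely presented modular quotient

`Γ = ⟨x, y | x² = y³ = 1⟩` is the modular group `PSL₂(ℤ)`.

1. For every finitely presented group `G` there is a quotient `P` of `Γ` by finitely many relations such
   that a subgroup of finite index of `P` maps onto `G`, a subgroup of finite index of `P` embeds in a
   finite power of `G`, and `P` belongs to every class of groups which contains `G` and is closed
   under subgroups and wreath products with finite groups. Such classes are the torsion groups, the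
   groups of bounded exponent, the groups without free subgroups of rank two, the amenable groups, the
   groups of subexponential growth.
2. A finitely presented group of intermediate growth (monster of type (7)) exists if and only if
   there is one among the quotients of `PSL₂(ℤ)` by finitely many relations.
3. The same holds for the infinite groups in any class as in 1, for instance for torsion groups and for
   groups of bounded exponent (type (2)).

Idea of the proof. `MP_65b575_al.ModularGroupQuotients` treats the groups `G` with a finite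
abelianization. The new step: let `χ` map the finitely presented group `G` onto `ℤ`, let `K` be the group of
the triples `(a, b, c)` in `G³` with `χ(a) + χ(b) + χ(c) = 0`, and `E = K ⋊ ℤ/3`. Then `K` is finitely
presented: it is the quotient of the free product of `G × G` and `G` by finitely many relations, where
`(a, b) ↦ (a, b, t^(-χ(a)-χ(b)))` and `c ↦ (t^(-χ(c)), 1, c)`, `χ(t) = 1`. A rational character `f` of `E` is
determined by the character `a ↦ f(a, t^(-χ(a)), 1)` of `G`, and this vanishes at `t`, since
`(t, t⁻¹, 1) (1, t, t⁻¹) (t⁻¹, 1, t) = 1`. So the first Betti number of `E` is smaller than that of `G`.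
After finitely many steps the abelianization is finite.
-/

set_option autoImplicit false

namespace Pool.Agent.Results.MP_65b575_al.VirtualQuotients

/-- the modular group `⟨x, y | x² = y³ = 1⟩` -/
abbrev Modular : Type :=
  PresentedGroup ({FreeGroup.of 0 ^ 2, FreeGroup.of 1 ^ 3} : Set (FreeGroup (Fin 2)))

/-- the quotient `Γ/⟨⟨S⟩⟩` -/
abbrev Quo (S : Set Modular) : Type := Modular ⧸ Subgroup.normalClosure S

/-- some infinite finitely presented group has the property `P` -/
def SomeFP (P : (G : Type) → [Group G] → Prop) : Prop :=
  ∃ (G : Type) (_ : Group G), Infinite G ∧ Group.IsFinitelyPresented G ∧ P G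

/-- some infinite quotient of the modular group by finitely many relations has the property `P` -/
def SomeModular (P : (G : Type) → [Group G] → Prop) : Prop :=
  ∃ S : Set Modular, S.Finite ∧ Infinite (Quo S) ∧ P (Quo S)

/-- `P` is inherited by subgroups and by regular wreath products with finite groups. -/
def Closed (P : (G : Type) → [Group G] → Prop) : Prop :=
  (∀ (G H : Type) [Group G] [Group H] (f : H →* G), Function.Injective f → P G → P H) ∧
    ∀ (G C : Type) [Group G] [Group C] [Finite C], P G → P (G ≀ᵣ C)

/-- Some subgroup of finite index of `E` maps onto `G`. -/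
def VirtualQuotient (G E : Type) [Group G] [Group E] : Prop :=
  ∃ H : Subgroup E, H.FiniteIndex ∧ ∃ π : H →* G, Function.Surjective π

/-- Some subgroup of finite index of `E` embeds in a finite power of `G`. -/
def VirtualPower (G E : Type) [Group G] [Group E] : Prop :=
  ∃ H : Subgroup E, H.FiniteIndex ∧ ∃ (I : Type) (_ : Finite I) (f : H →* (I → G)),
    Function.Injective f

/-- torsion groups -/
def Torsion (G : Type) [Group G] : Prop := ∀ g : G, IsOfFinOrder g

/-- property (2): bounded exponent -/
def Type2 (G : Type) [Group G] : Prop := ∃ n : ℕ, 1 ≤ n ∧ ∀ g : G, g ^ n = 1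

open scoped Pointwise in
/-- The growth function with respect to `S`: the number of elements of word length at most `n`. -/
noncomputable def growth {G : Type} [Group G] (S : Finset G) (n : ℕ) : ℕ :=
  (((S : Set G) ∪ (S : Set G)⁻¹ ∪ {1}) ^ n).ncard

/-- property (7): for a finite generating set the growth function is bounded above by no polynomial
and bounded below by no exponential function `e ^ (c r)`, `c > 0`. -/
def Type7 (G : Type) [Group G] : Prop :=
  ∃ S : Finset G, Subgroup.closure (S : Set G) = ⊤ ∧
    (∀ C d : ℕ, ∃ r : ℕ, C * (r + 1) ^ d < growth S r) ∧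
    ∀ c : ℝ, 0 < c → ∃ r : ℕ, (growth S r : ℝ) < Real.exp (c * r)

open Pool.Agent.U613 Pool.Agent.U613.VQ

lemma closed_iff {P : (G : Type) → [Group G] → Prop} (h : Closed P) : VQ.Closed P :=
  ⟨h.1, fun G C _ _ _ hG => h.1 _ _ (MG.toReg C G).toMonoidHom (MG.toReg C G).injective (h.2 G C hG)⟩

lemma key (G : Type) [Group G] (hfp : Group.IsFinitelyPresented G) :
    ∃ S : Set Modular, S.Finite ∧ Up G (Quo S) := VQ.main hfp

lemma quo_fp {S : Set Modular} (hS : S.Finite) : Group.IsFinitelyPresented (Quo S) :=
  Group.IsFinitelyPresented.quotient _ ⟨S, hS, rfl⟩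

/-- (1) Every finitely presented group and the modular group. (2) Type (7). (3) Closed classes, among
them the torsion groups and the groups of bounded exponent. -/
theorem result :
    (∀ (G : Type) [Group G], Group.IsFinitelyPresented G → ∃ S : Set Modular, S.Finite ∧
      VirtualQuotient G (Quo S) ∧ VirtualPower G (Quo S) ∧
      ∀ P : (G : Type) → [Group G] → Prop, Closed P → P G → P (Quo S)) ∧
    (SomeFP Type7 ↔ SomeModular Type7) ∧
    (∀ P : (G : Type) → [Group G] → Prop, Closed P → (SomeFP P ↔ SomeModular P)) ∧
    Closed Torsion ∧ Closed Type2 := by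
  refine ⟨?_, ⟨?_, ?_⟩, fun P hP => ⟨?_, ?_⟩, ⟨?_, ?_⟩, ?_, ?_⟩
  · intro G _ hfp
    obtain ⟨S, hS, h⟩ := key G hfp
    exact ⟨S, hS, h.1, h.vpow, fun P hP hG => h.2 P (closed_iff hP) hG⟩
  · rintro ⟨G, _, hinf, hfp, h7⟩
    obtain ⟨S, hS, h⟩ := key G hfp
    have hfg : Group.FG (Quo S) := MG.fg_of_fp (quo_fp hS)
    exact ⟨S, hS, h.infinite, h.type7 h7⟩
  · rintro ⟨S, hS, hi, h⟩
    exact ⟨_, inferInstance, hi, quo_fp hS, h⟩
  · rintro ⟨G, _, hinf, hfp, hG⟩
    obtain ⟨S, hS, h⟩ := key G hfp
    exact ⟨S, hS, h.infinite, h.2 P (closed_iff hP) hG⟩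
  · rintro ⟨S, hS, hi, h⟩
    exact ⟨_, inferInstance, hi, quo_fp hS, h⟩
  · intro G H _ _ f hf hG h
    exact (hf.isOfFinOrder_iff).1 (hG (f h))
  · intro G C _ _ _ hG w
    have h1 := MG.W_torsion (C := C) hG ((MG.toReg C G).symm w)
    obtain ⟨n, hn, h2⟩ := isOfFinOrder_iff_pow_eq_one.1 h1
    refine isOfFinOrder_iff_pow_eq_one.2 ⟨n, hn, ?_⟩
    apply (MG.toReg C G).symm.injective
    rw [map_pow, map_one]
    exact h2
  · rintro G H _ _ f hf ⟨n, hn, hG⟩
    exact ⟨n, hn, fun h => hf (by rw [map_pow, hG, map_one])⟩
  · rintro G C _ _ _ ⟨n, hn, hG⟩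
    refine ⟨Nat.card C * n, Nat.mul_pos Nat.card_pos hn, fun w => ?_⟩
    apply (MG.toReg C G).symm.injective
    rw [map_pow, map_one]
    exact PO.W.exp (fun a => pow_card_eq_one') hG _

end Pool.Agent.Results.MP_65b575_al.VirtualQuotients
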